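import Pool.Agent.helper65.GF.SpecG

/-!
# bz:YNV (MP_ea335c_an)
-/

set_option autoImplicit false

namespace Pool.Agent.GD

open Finset

lemma YNV_closed (j i : ℕ) :
    AH (j + i) (j + i + 1) j = (2 * j + 1) * (((2 * (j + i) + 2).factorial : ℝ) /
      ((i + 1).factorial * (2 * j + i + 2).factorial)) := by
  unfold AH
  have e1 : j + i + 1 + (j + i) + 1 = 2 * (j + i) + 2 := by ring
  have e2 : j + i - j = i := by omega
  have e3 : j + i + j + 1 = 2 * j + i + 1 := by ring
  have e4 : j + i + 1 - (j + i) - 1 = 0 := by omega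
  rw [e1, e2, e3, e4]
  have h1 : ((i + 1).factorial : ℝ) = (i + 1) * i.factorial := by
    rw [Nat.factorial_succ]; push_cast; ring
  have h2 : ((2 * j + i + 2).factorial : ℝ) = (2 * j + i + 2) * (2 * j + i + 1).factorial := by
    rw [show 2 * j + i + 2 = (2 * j + i + 1) + 1 from rfl, Nat.factorial_succ]; push_cast; ring
  rw [h1, h2]
  have p1 : ((i.factorial : ℕ) : ℝ) ≠ 0 := by exact_mod_cast Nat.factorial_ne_zero i
  have p2 : (((2 * j + i + 1).factorial : ℕ) : ℝ) ≠ 0 := by exact_mod_cast Nat.factorial_ne_zero _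
  have p3 : ((i : ℝ) + 1) ≠ 0 := by positivity
  have p4 : (2 * (j : ℝ) + i + 2) ≠ 0 := by positivity
  have e5 : ((((j + i + 1 : ℕ) : ℝ)) - (j : ℝ)) * ((((j + i + 1 : ℕ) : ℝ)) + (j : ℝ) + 1) = (i + 1) * (2 * j + i + 2) := by
    push_cast; ring
  rw [e5, Nat.factorial_zero]
  push_cast
  field_simp

lemma YNV_step (j i : ℕ) :
    ((i : ℝ) + 2) * (AH (j + (i + 1)) (j + (i + 1) + 1) j * (2 * j + 3)) =
      (2 * (j : ℝ) + i + 4) * (AH (j + 1 + i) (j + 1 + i + 1) (j + 1) * (2 * j + 1)) := by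
  rw [YNV_closed j (i + 1), YNV_closed (j + 1) i]
  have e1 : 2 * (j + (i + 1)) + 2 = 2 * (j + 1 + i) + 2 := by ring
  have e2 : 2 * (j + 1) + i + 2 = (2 * j + i + 3) + 1 := by ring
  have e3 : 2 * j + (i + 1) + 2 = 2 * j + i + 3 := by ring
  rw [e1, e2, e3]
  have h1 : ((i + 1 + 1).factorial : ℝ) = (i + 1 + 1) * (i + 1).factorial := by
    rw [Nat.factorial_succ]; push_cast; ring
  have h2 : ((2 * j + i + 3 + 1).factorial : ℝ) = (2 * j + i + 3 + 1) * (2 * j + i + 3).factorial := by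
    rw [Nat.factorial_succ]; push_cast; ring
  rw [h1, h2]
  have p1 : (((i + 1).factorial : ℕ) : ℝ) ≠ 0 := by exact_mod_cast Nat.factorial_ne_zero _
  have p2 : (((2 * j + i + 3).factorial : ℕ) : ℝ) ≠ 0 := by exact_mod_cast Nat.factorial_ne_zero _
  have p3 : ((i : ℝ) + 1 + 1) ≠ 0 := by positivity
  have p4 : (2 * (j : ℝ) + i + 3 + 1) ≠ 0 := by positivity
  push_cast
  field_simp
  ring

lemma YNV_ind (i : ℕ) : ∀ p j : ℕ, j + i = p →
    (2 * (p : ℝ) + 3) * AH p (p + 1) j - (2 * j + 1) * BH p (p + 1) j = 2 * (2 * j + 1) := by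
  induction i with
  | zero =>
    intro p j hp
    subst hp
    have h0 := YNV_closed j 0
    have e1 : 2 * (j + 0) + 2 = 2 * j + 0 + 2 := by ring
    rw [e1] at h0
    have p1 : (((2 * j + 0 + 2).factorial : ℕ) : ℝ) ≠ 0 := by
      exact_mod_cast Nat.factorial_ne_zero _
    have h1 : AH (j + 0) (j + 0 + 1) j = 2 * j + 1 := by
      rw [h0]
      norm_num
      field_simp
    unfold BH
    rw [h1]
    simp
    ring
  | succ i ih =>
    intro p j hp
    have h1 := ih p (j + 1) (by omega)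
    have hB : BH p (p + 1) j = BH p (p + 1) (j + 1) + AH p (p + 1) j + AH p (p + 1) (j + 1) := by
      unfold BH
      rw [← Finset.sum_Ioc_consecutive (fun q => AH p (p + 1) q) (Nat.le_succ j)
        (show j + 1 ≤ p by omega)]
      rw [Nat.Ioc_succ_singleton, Finset.sum_singleton]
      ring
    have h2 := YNV_step j i
    have hp1 : j + (i + 1) = p := hp
    have hp2 : j + 1 + i = p := by omega
    rw [hp1, hp2] at h2
    rw [hB]
    have hj0 : (0 : ℝ) < 2 * (j : ℝ) + 3 := by positivity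
    have hpr : (p : ℝ) = j + i + 1 := by rw [← hp]; push_cast; ring
    push_cast at h1
    have key : (2 * (j : ℝ) + 3) * ((2 * (p : ℝ) + 3) * AH p (p + 1) j -
        (2 * j + 1) * (BH p (p + 1) (j + 1) + AH p (p + 1) j + AH p (p + 1) (j + 1)) - 2 * (2 * j + 1)) = 0 := by
      rw [hpr] at h1 ⊢
      linear_combination (2 * (j : ℝ) + 1) * h1 + 2 * h2
    rcases mul_eq_zero.mp key with h | h
    · exact absurd h (ne_of_gt hj0)
    · linarith

theorem YNV : YNV_stmt := by
  intro p j hjp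
  exact YNV_ind (p - j) p j (by omega)

end Pool.Agent.GD
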